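import Mathlib

set_option autoImplicit false

namespace Pool.Agent.H.MP_c7fc41_gt

open MeasureTheory Set Filter Topology
open scoped Pointwise

variable {n : ℕ}

theorem slab {X Y : Set (EuclideanSpace ℝ (Fin n))} (hX : MeasurableSet X) (hY : MeasurableSet Y)
    {a v : EuclideanSpace ℝ (Fin n)} {β δ : ℝ} (hv : inner ℝ a v = 1)
    (h1 : ∀ x ∈ X, |inner ℝ a x - β| ≤ δ) (h2 : ∀ x ∈ X, ∀ t ∈ Icc (0 : ℝ) 1, x + t • v ∈ Y) :
    volume X ≤ ENNReal.ofReal (2 * δ) * volume Y := by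
  let S : Set (ℝ × EuclideanSpace ℝ (Fin n)) := {p | p.1 ∈ Icc (0 : ℝ) 1 ∧ p.2 + -(p.1 • v) ∈ X}
  have hS : MeasurableSet S := (measurable_fst measurableSet_Icc).inter
    ((show Measurable fun p : ℝ × EuclideanSpace ℝ (Fin n) => p.2 + -(p.1 • v) by fun_prop) hX)
  have e1 : (volume.prod volume) S = volume X := by
    rw [Measure.prod_apply hS, lintegral_congr (g := (Icc (0 : ℝ) 1).indicator fun _ => volume X)]
    · simp
    intro t
    by_cases ht : t ∈ Icc (0 : ℝ) 1
    · rw [indicator_of_mem ht, ← measure_preimage_add_right volume (-(t • v)) X]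
      congr 1
      ext x
      simp only [S, mem_preimage, mem_ofPred_eq, ht, true_and]
    · rw [indicator_of_notMem ht, eq_empty_of_forall_notMem (s := Prod.mk t ⁻¹' S)
        fun x hx => ht hx.1, measure_empty]
  rw [← e1, Measure.prod_apply_symm hS, ← setLIntegral_const, ← lintegral_indicator hY]
  refine lintegral_mono fun x => ?_
  by_cases hx : x ∈ Y
  · rw [indicator_of_mem hx, ← Real.volume_closedBall (inner ℝ a x - β)]
    refine measure_mono fun t ht => ?_
    have := h1 _ ht.2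
    simp only [inner_add_right, inner_neg_right, real_inner_smul_right, hv] at this
    rw [Metric.mem_closedBall, Real.dist_eq, abs_sub_comm]
    convert this using 2
    ring
  · rw [eq_empty_of_forall_notMem (s := (fun t => (t, x)) ⁻¹' S)
      fun t ht => hx (by simpa using h2 _ ht.2 t ht.1), measure_empty]
    exact zero_le

theorem slab2 {a a' : EuclideanSpace ℝ (Fin n)}
    (h : inner ℝ a a' ^ 2 ≠ inner ℝ a a * inner ℝ a' a') (R : ℝ) : ∃ C : ℝ, ∀ β β' δ : ℝ, 0 ≤ δ →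
    volume {x ∈ Metric.closedBall 0 R | |inner ℝ a x - β| ≤ δ ∧ |inner ℝ a' x - β'| ≤ δ} ≤
      ENNReal.ofReal (C * δ ^ 2) := by
  have h' : inner ℝ a a * inner ℝ a' a' - inner ℝ a a' ^ 2 ≠ 0 := sub_ne_zero.2 h.symm
  have h0 : inner ℝ a' a' ≠ (0 : ℝ) := fun e => by
    rw [inner_self_eq_zero.1 e] at h
    simp at h
  obtain ⟨v, v1, v2⟩ : ∃ v, inner ℝ a v = 1 ∧ inner ℝ a' v = 0 := by
    refine ⟨(inner ℝ a a * inner ℝ a' a' - inner ℝ a a' ^ 2)⁻¹ •
      (inner ℝ a' a' • a - inner ℝ a a' • a'), ?_, ?_⟩ <;>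
    rw [real_inner_smul_right, inner_sub_right, real_inner_smul_right, real_inner_smul_right]
    · field_simp
    · rw [real_inner_comm a a']; ring
  obtain ⟨w, w1⟩ : ∃ w, inner ℝ a' w = 1 :=
    ⟨(inner ℝ a' a')⁻¹ • a', by rw [real_inner_smul_right, inv_mul_cancel₀ h0]⟩
  have st : ∀ (r : ℝ) (u x : EuclideanSpace ℝ (Fin n)), x ∈ Metric.closedBall 0 r →
      ∀ t ∈ Icc (0 : ℝ) 1, x + t • u ∈ Metric.closedBall 0 (r + ‖u‖) := fun r u x hx t ht => by
    rw [mem_closedBall_zero_iff] at hx ⊢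
    refine (norm_add_le _ _).trans (add_le_add hx ?_)
    rw [norm_smul, Real.norm_of_nonneg ht.1]
    exact mul_le_of_le_one_left (norm_nonneg _) ht.2
  refine ⟨4 * (volume (Metric.closedBall (0 : EuclideanSpace ℝ (Fin n)) (R + ‖v‖ + ‖w‖))).toReal,
    fun β β' δ hδ => ?_⟩
  refine (slab (Y := {x ∈ Metric.closedBall 0 (R + ‖v‖) | |inner ℝ a' x - β'| ≤ δ})
    (by measurability) (by measurability) v1 (fun x hx => hx.2.1) fun x hx t ht =>
      ⟨st _ _ _ hx.1 t ht, by simpa [inner_add_right, real_inner_smul_right, v2] using hx.2.2⟩).trans ?_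
  refine (mul_le_mul_right (slab (by measurability) measurableSet_closedBall w1 (fun x hx => hx.2)
    fun x hx t ht => st _ _ _ hx.1 t ht) _).trans ?_
  rw [← ENNReal.ofReal_toReal (measure_closedBall_lt_top (x := 0) (r := R + ‖v‖ + ‖w‖)).ne,
    ← ENNReal.ofReal_mul (by positivity), ← ENNReal.ofReal_mul (by positivity),
    ENNReal.toReal_ofReal ENNReal.toReal_nonneg]
  exact ENNReal.ofReal_le_ofReal (le_of_eq (by ring))

/-- polyhedron -/
def P {ι : Type} (a : ι → EuclideanSpace ℝ (Fin n)) (b : ι → ℝ) : Set (EuclideanSpace ℝ (Fin n)) :=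
  {x | ∀ i, inner ℝ (a i) x ≤ b i}

theorem deriv {ι : Type} [Fintype ι] [hι : Nonempty ι] {a : ι → EuclideanSpace ℝ (Fin n)} {b : ι → ℝ}
    (H : ∀ i j, i ≠ j → inner ℝ (a i) (a j) ^ 2 ≠ inner ℝ (a i) (a i) * inner ℝ (a j) (a j) ∨
      (a j = -a i ∧ 0 < b i + b j)) {R : ℝ} (hR : P a (fun i => b i + 1) ⊆ Metric.closedBall 0 R)
    {L : Set (EuclideanSpace ℝ (Fin n))} {l : ι → EuclideanSpace ℝ (Fin n)} (l1 : ∀ i, l i ∈ L)
    (l2 : ∀ i, ∀ y ∈ L, inner ℝ (a i) y ≤ inner ℝ (a i) (l i)) {p : ℝ → ℝ} {d : ℝ}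
    (hp : HasDerivAt p d 0) (hv : ∀ᶠ ε in 𝓝 (0 : ℝ),
      (volume (P a fun i => b i + ε * inner ℝ (a i) (l i))).toReal = p ε) :
    HasDerivWithinAt (fun ε : ℝ => (volume (P a b + ε • L)).toReal) d (Ici 0) 0 := by
  classical
  obtain ⟨M, hM⟩ := (finite_range fun q : ι × ι => |inner ℝ (a q.1) (l q.2)|).bddAbove
  replace hM : ∀ i j, |inner ℝ (a i) (l j)| ≤ |M| := fun i j =>
    (hM ⟨(i, j), rfl⟩).trans (le_abs_self M)
  have key : ∀ q : ι × ι, ∃ C : ℝ, ∀ᶠ ε in 𝓝[≥] (0 : ℝ),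
      volume {x ∈ Metric.closedBall 0 R | q.1 ≠ q.2 ∧ |inner ℝ (a q.1) x - b q.1| ≤ ε * |M| ∧
        |inner ℝ (a q.2) x - b q.2| ≤ ε * |M|} ≤ ENNReal.ofReal (C * ε ^ 2) := by
    rintro ⟨i, j⟩
    by_cases e : i = j
    · exact ⟨0, by simp [e]⟩
    rcases H i j e with h | ⟨h, h'⟩
    · obtain ⟨C, hC⟩ := slab2 h R
      refine ⟨C * |M| ^ 2, ?_⟩
      filter_upwards [self_mem_nhdsWithin] with ε (hε : 0 ≤ ε)
      refine (measure_mono fun x hx => ?_).trans ((hC (b i) (b j) (ε * |M|) (by positivity)).trans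
        (le_of_eq (by congr 1; ring)))
      exact ⟨hx.1, hx.2.2⟩
    · refine ⟨0, ?_⟩
      have : ∀ᶠ ε in 𝓝 (0 : ℝ), 2 * (ε * |M|) < b i + b j :=
        (show ContinuousAt (fun ε : ℝ => 2 * (ε * |M|)) 0 by fun_prop).eventually_lt
          continuousAt_const (by simpa using h')
      filter_upwards [nhdsWithin_le_nhds this] with ε hε
      rw [eq_empty_of_forall_notMem (s := {x ∈ _ | _}) fun x hx => ?_, measure_empty]
      · exact zero_le
      have h1 := abs_le.1 hx.2.2.1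
      have h2 := abs_le.1 hx.2.2.2
      simp only [h, inner_neg_left] at h1 h2
      linarith [h1.1, h2.1]
  choose C hC using key
  have sm : ∀ᶠ ε in 𝓝 (0 : ℝ), ε * |M| < 1 :=
    (show ContinuousAt (fun ε : ℝ => ε * |M|) 0 by fun_prop).eventually_lt
      continuousAt_const (by simp)
  have bd : ∀ᶠ ε in 𝓝[≥] (0 : ℝ),
      |(volume (P a b + ε • L)).toReal - p ε| ≤ (∑ q, |C q|) * ε ^ 2 := by
    filter_upwards [eventually_all.2 hC, nhdsWithin_le_nhds sm, nhdsWithin_le_nhds hv,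
      self_mem_nhdsWithin] with ε h1 h2 h3 (h0 : 0 ≤ ε)
    have m : ∀ i j, |ε * inner ℝ (a i) (l j)| ≤ ε * |M| := fun i j => by
      rw [abs_mul, abs_of_nonneg h0]
      exact mul_le_mul_of_nonneg_left (hM i j) h0
    have s1 : P a b + ε • L ⊆ P a fun i => b i + ε * inner ℝ (a i) (l i) := by
      rintro _ ⟨x, hx, _, ⟨y, hy, rfl⟩, rfl⟩ i
      simp only [inner_add_right, real_inner_smul_right]
      exact add_le_add (hx i) (mul_le_mul_of_nonneg_left (l2 i y hy) h0)
    have s2 : (P a fun i => b i + ε * inner ℝ (a i) (l i)) ⊆ Metric.closedBall 0 R :=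
      fun x hx => hR fun i => (hx i).trans (by linarith [abs_le.1 (m i i)])
    have s3 : (P a fun i => b i + ε * inner ℝ (a i) (l i)) ⊆ (P a b + ε • L) ∪
        ⋃ q : ι × ι, {x ∈ Metric.closedBall 0 R | q.1 ≠ q.2 ∧
          |inner ℝ (a q.1) x - b q.1| ≤ ε * |M| ∧ |inner ℝ (a q.2) x - b q.2| ≤ ε * |M|} := by
      intro x hx
      rw [mem_union, or_iff_not_imp_right]
      intro hn
      simp only [mem_iUnion, not_exists, mem_ofPred_eq, s2 hx, true_and, Prod.forall] at hn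
      have dp : ∀ j, ¬|inner ℝ (a j) x - b j| ≤ ε * |M| → inner ℝ (a j) x ≤ b j - ε * |M| :=
        fun j hj => not_lt.1 fun c => hj (abs_le.2
          ⟨by linarith, by linarith [hx j, abs_le.1 (m j j)]⟩)
      have fin : ∀ i, (∀ j, j ≠ i → inner ℝ (a j) x ≤ b j - ε * |M|) → x ∈ P a b + ε • L :=
        fun i hi => ⟨x - ε • l i, fun j => by
          rw [inner_sub_right, real_inner_smul_right]
          by_cases e : j = i
          · subst e; linarith [hx j]
          · linarith [hi j e, abs_le.1 (m j i)], _, ⟨_, l1 i, rfl⟩, sub_add_cancel _ _⟩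
      by_cases c : ∃ i, |inner ℝ (a i) x - b i| ≤ ε * |M|
      · obtain ⟨i, hi⟩ := c
        exact fin i fun j hj => dp j fun h => hn j i ⟨hj, h, hi⟩
      · obtain ⟨i⟩ := hι
        exact fin i fun j _ => dp j fun h => c ⟨j, h⟩
    have t2 := ((measure_mono s2).trans_lt (measure_closedBall_lt_top (μ := volume))).ne
    have t1 := ne_top_of_le_ne_top t2 (measure_mono s1)
    have s4 := (measure_mono (μ := volume) s3).trans ((measure_union_le _ _).trans (add_le_add le_rfl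
      ((measure_iUnion_fintype_le _ _).trans (Finset.sum_le_sum fun q _ => (h1 q).trans
        (ENNReal.ofReal_le_ofReal (mul_le_mul_of_nonneg_right (le_abs_self _) (sq_nonneg ε)))))))
    rw [← ENNReal.ofReal_sum_of_nonneg fun q _ => by positivity, ← Finset.sum_mul] at s4
    have s5 := ENNReal.toReal_mono (ENNReal.add_ne_top.2 ⟨t1, ENNReal.ofReal_ne_top⟩) s4
    rw [ENNReal.toReal_add t1 ENNReal.ofReal_ne_top, ENNReal.toReal_ofReal (by positivity), h3] at s5
    have s6 := ENNReal.toReal_mono t2 (measure_mono s1)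
    rw [h3] at s6
    rw [abs_sub_comm, abs_of_nonneg (by linarith)]
    linarith
  have z := bd.self_of_nhdsWithin self_mem_Ici
  have : HasDerivWithinAt (fun ε : ℝ => (volume (P a b + ε • L)).toReal - p ε) 0 (Ici 0) 0 := by
    rw [hasDerivWithinAt_iff_isLittleO]
    simp only [ne_eq, OfNat.ofNat_ne_zero, not_false_eq_true, zero_pow, mul_zero,
      abs_nonpos_iff] at z
    simp only [z, sub_zero, smul_zero]
    refine Asymptotics.IsBigO.trans_isLittleO (g := fun ε : ℝ => ε ^ 2)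
      (Asymptotics.IsBigO.of_bound (∑ q, |C q|) ?_)
      ((Asymptotics.isLittleO_pow_id (by norm_num)).mono nhdsWithin_le_nhds)
    filter_upwards [bd] with ε hε
    simpa using hε
  simpa using this.fun_add hp.hasDerivWithinAt

end Pool.Agent.H.MP_c7fc41_gt
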