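import Pool.Agent.H.MP_c7fc41_gt.A

set_option autoImplicit false

namespace Pool.Agent.H.MP_c7fc41_gt

open MeasureTheory Set Filter Topology
open scoped Pointwise

theorem int_min {l r c k : ℝ} (h1 : l ≤ k) (h2 : k ≤ r) :
    ∫ x in l..r, min c (c + k - x) = c * (r - l) - (r - k) ^ 2 / 2 := by
  have ct : Continuous fun x : ℝ => min c (c + k - x) := by fun_prop
  rw [← intervalIntegral.integral_add_adjacent_intervals (b := k) (ct.intervalIntegrable _ _)
    (ct.intervalIntegrable _ _),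
    intervalIntegral.integral_congr (g := fun _ => c) (fun x hx => by
      rw [uIcc_of_le h1] at hx
      exact min_eq_left (by linarith [hx.2])),
    intervalIntegral.integral_congr (a := k) (g := fun x => c + k - x) (fun x hx => by
      rw [uIcc_of_le h2] at hx
      exact min_eq_right (by linarith [hx.1])),
    intervalIntegral.integral_sub (by simp) (by simp)]
  simp
  ring

theorem region {f g : ℝ → ℝ} (hf : Continuous f) (hg : Continuous g) {l r : ℝ} (h : l ≤ r)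
    (le : ∀ x ∈ Icc l r, f x ≤ g x) :
    (volume {p : ℝ × ℝ | p.1 ∈ Icc l r ∧ p.2 ∈ Icc (f p.1) (g p.1)}).toReal =
      ∫ x in l..r, (g x - f x) := by
  rw [Measure.volume_eq_prod, Measure.prod_apply
    (measurableSet_region_between_cc hf.measurable hg.measurable measurableSet_Icc),
    lintegral_congr (g := (Icc l r).indicator fun x => ENNReal.ofReal (g x - f x)),
    lintegral_indicator measurableSet_Icc, intervalIntegral.integral_of_le h,
    ← integral_Icc_eq_integral_Ioc, integral_eq_lintegral_of_nonneg_ae]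
  · filter_upwards [ae_restrict_mem measurableSet_Icc] with x hx using sub_nonneg.2 (le x hx)
  · exact (hg.sub hf).aestronglyMeasurable
  · intro x
    by_cases hx : x ∈ Icc l r
    · rw [indicator_of_mem hx, ← Real.volume_Icc]
      congr 1
      ext y
      simp only [mem_preimage, mem_ofPred_eq, hx, true_and]
    · rw [indicator_of_notMem hx, eq_empty_of_forall_notMem (s := Prod.mk x ⁻¹' _)
        fun y hy => hx hy.1, measure_empty]

/-- hexagon with three edge directions -/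
def Hx (b0 b1 b2 b3 b4 b5 : ℝ) : Set (ℝ × ℝ) :=
  {p | -p.1 ≤ b0 ∧ -p.2 ≤ b1 ∧ p.1 + p.2 ≤ b2 ∧ p.1 ≤ b3 ∧ p.2 ≤ b4 ∧ -p.1 - p.2 ≤ b5}

theorem vol_hx {b0 b1 b2 b3 b4 b5 : ℝ} (h1 : b4 ≤ b0 + b2) (h2 : b2 ≤ b3 + b4) (h3 : b5 ≤ b0 + b1)
    (h4 : b1 ≤ b3 + b5) (h5 : b0 ≤ b4 + b5) (h6 : b3 ≤ b1 + b2) (_h7 : 0 ≤ b1 + b4)
    (_h8 : 0 ≤ b2 + b5) : (volume (Hx b0 b1 b2 b3 b4 b5)).toReal =
      (b1 + b4) * (b0 + b3) - (b3 + b4 - b2) ^ 2 / 2 - (b0 + b1 - b5) ^ 2 / 2 := by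
  have c1 : Continuous fun x : ℝ => min b4 (b4 + (b2 - b4) - x) := by fun_prop
  have c2 : Continuous fun x : ℝ => min b1 (b1 + (b5 - b1) - -x) := by fun_prop
  have le : ∀ x ∈ Icc (-b0) b3, -min b1 (b1 + (b5 - b1) - -x) ≤ min b4 (b4 + (b2 - b4) - x) :=
    fun x hx => by
      rw [neg_le, le_min_iff, neg_le, neg_le (a := min _ _), le_min_iff, le_min_iff]
      constructorm* _ ∧ _ <;> linarith [hx.1, hx.2]
  have e : Hx b0 b1 b2 b3 b4 b5 = {p | p.1 ∈ Icc (-b0) b3 ∧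
      p.2 ∈ Icc (-min b1 (b1 + (b5 - b1) - -p.1)) (min b4 (b4 + (b2 - b4) - p.1))} := by
    ext p
    simp only [Hx, mem_ofPred_eq, mem_Icc, neg_le (a := min _ _), le_min_iff]
    constructor <;> intro h <;> casesm* _ ∧ _ <;> constructorm* _ ∧ _ <;> linarith
  rw [e, region c2.fun_neg c1 (by linarith) le]
  simp only [sub_neg_eq_add (min _ _)]
  rw [intervalIntegral.integral_add (c1.intervalIntegrable _ _) (c2.intervalIntegrable _ _),
    intervalIntegral.integral_comp_neg fun x => min b1 (b1 + (b5 - b1) - x),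
    int_min (by linarith) (by linarith), int_min (by linarith) (by linarith)]
  ring

/-- regrouping of coordinates -/
def φ (x : EuclideanSpace ℝ (Fin 4)) : (ℝ × ℝ) × ℝ × ℝ := ((x 0, x 1), x 2, x 3)

theorem φ_pres : MeasurePreserving φ := by
  have h1 := (volume_measurePreserving_piCongrLeft (fun _ : Fin (2 + 2) => ℝ) finSumFinEquiv).symm
  have h2 := volume_measurePreserving_sumPiEquivProdPi (fun _ : Fin 2 ⊕ Fin 2 => ℝ)
  have h3 := volume_preserving_finTwoArrow ℝ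
  exact (h3.prod h3).comp (h2.comp (h1.comp (PiLp.volume_preserving_ofLp (Fin (2 + 2)))))

theorem vol_prod (b0 b1 b2 b3 b4 b5 c0 c1 c2 c3 c4 c5 : ℝ) :
    (volume (φ ⁻¹' (Hx b0 b1 b2 b3 b4 b5 ×ˢ Hx c0 c1 c2 c3 c4 c5))).toReal =
      (volume (Hx b0 b1 b2 b3 b4 b5)).toReal * (volume (Hx c0 c1 c2 c3 c4 c5)).toReal := by
  rw [φ_pres.measure_preimage (MeasurableSet.nullMeasurableSet (by unfold Hx; measurability)),
    Measure.volume_eq_prod, Measure.prod_prod, ENNReal.toReal_mul]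

/-- facet normals of the product of triangles -/
def u : Fin 6 → EuclideanSpace ℝ (Fin 4) :=
  ![!₂[-1, 0, 0, 0], !₂[0, -1, 0, 0], !₂[1, 1, 0, 0], !₂[0, 0, -1, 0], !₂[0, 0, 0, -1], !₂[0, 0, 1, 1]]

theorem ip (x y : EuclideanSpace ℝ (Fin 4)) :
    inner ℝ x y = x 0 * y 0 + x 1 * y 1 + x 2 * y 2 + x 3 * y 3 := by
  simp [PiLp.inner_apply, Fin.sum_univ_four, mul_comm]

theorem mem1 (b : Fin 6 → ℝ) (x : EuclideanSpace ℝ (Fin 4)) : x ∈ P u b ↔ -x 0 ≤ b 0 ∧ -x 1 ≤ b 1 ∧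
    x 0 + x 1 ≤ b 2 ∧ -x 2 ≤ b 3 ∧ -x 3 ≤ b 4 ∧ x 2 + x 3 ≤ b 5 := by
  simp [P, u, ip, Fin.forall_fin_succ]

theorem mem2 (b : Fin 6 → ℝ) (x : EuclideanSpace ℝ (Fin 4)) : x ∈ P (-u) b ↔ x 0 ≤ b 0 ∧ x 1 ≤ b 1 ∧
    -x 0 - x 1 ≤ b 2 ∧ x 2 ≤ b 3 ∧ x 3 ≤ b 4 ∧ -x 2 - x 3 ≤ b 5 := by
  have : x ∈ P (-u) b ↔ -x ∈ P u b := by simp [P]
  simp only [this, mem1, PiLp.neg_apply, neg_neg, sub_eq_add_neg]

theorem mem3 (b : Fin 6 ⊕ Fin 6 → ℝ) (x : EuclideanSpace ℝ (Fin 4)) : x ∈ P (Sum.elim u (-u)) b ↔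
    x ∈ P u (b ∘ .inl) ∧ x ∈ P (-u) (b ∘ .inr) := Sum.forall

theorem vol1 {b : Fin 6 → ℝ} (h : ∀ i, 0 < b i) :
    (volume (P u b)).toReal = (b 0 + b 1 + b 2) ^ 2 / 2 * ((b 3 + b 4 + b 5) ^ 2 / 2) := by
  have : P u b = φ ⁻¹' (Hx (b 0) (b 1) (b 2) (b 1 + b 2) (b 0 + b 2) (b 0 + b 1) ×ˢ
      Hx (b 3) (b 4) (b 5) (b 4 + b 5) (b 3 + b 5) (b 3 + b 4)) := by
    ext x
    simp only [mem1, Hx, φ, mem_preimage, mem_prod, mem_ofPred_eq]
    constructor <;> intro h <;> casesm* _ ∧ _ <;> constructorm* _ ∧ _ <;> linarith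
  rw [this, vol_prod, vol_hx, vol_hx]
  · ring
  all_goals linarith [h 0, h 1, h 2, h 3, h 4, h 5]

theorem vol2 {b : Fin 6 → ℝ} (h : ∀ i, 0 < b i) :
    (volume (P (-u) b)).toReal = (b 0 + b 1 + b 2) ^ 2 / 2 * ((b 3 + b 4 + b 5) ^ 2 / 2) := by
  rw [← vol1 h, ← Measure.measure_neg]
  congr 2
  ext x
  simp [P]

theorem vol3 {b : Fin 6 ⊕ Fin 6 → ℝ} {ρ : ℝ} (h : ∀ i, 3 * |b i - ρ| < ρ) :
    (volume (P (Sum.elim u (-u)) b)).toReal =
      ((b (.inl 1) + b (.inr 1)) * (b (.inl 0) + b (.inr 0)) -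
        (b (.inr 0) + b (.inr 1) - b (.inl 2)) ^ 2 / 2 -
        (b (.inl 0) + b (.inl 1) - b (.inr 2)) ^ 2 / 2) *
      ((b (.inl 4) + b (.inr 4)) * (b (.inl 3) + b (.inr 3)) -
        (b (.inr 3) + b (.inr 4) - b (.inl 5)) ^ 2 / 2 -
        (b (.inl 3) + b (.inl 4) - b (.inr 5)) ^ 2 / 2) := by
  have : P (Sum.elim u (-u)) b = φ ⁻¹'
      (Hx (b (.inl 0)) (b (.inl 1)) (b (.inl 2)) (b (.inr 0)) (b (.inr 1)) (b (.inr 2)) ×ˢ
      Hx (b (.inl 3)) (b (.inl 4)) (b (.inl 5)) (b (.inr 3)) (b (.inr 4)) (b (.inr 5))) := by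
    ext x
    simp only [mem3, mem1, mem2, Hx, φ, mem_preimage, mem_prod, mem_ofPred_eq, Function.comp]
    constructor <;> intro h <;> casesm* _ ∧ _ <;> constructorm* _ ∧ _ <;> assumption
  have k : ∀ i j k, b i ≤ b j + b k ∧ 0 ≤ b i + b j := fun i j k => by
    constructor <;> linarith [h i, h j, h k, le_abs_self (b i - ρ), neg_abs_le (b i - ρ),
      neg_abs_le (b j - ρ), neg_abs_le (b k - ρ), abs_nonneg (b i - ρ)]
  rw [this, vol_prod, vol_hx (k _ _ _).1 (k _ _ _).1 (k _ _ _).1 (k _ _ _).1 (k _ _ _).1 (k _ _ _).1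
    (k _ _ (.inl 0)).2 (k _ _ (.inl 0)).2, vol_hx (k _ _ _).1 (k _ _ _).1 (k _ _ _).1 (k _ _ _).1
    (k _ _ _).1 (k _ _ _).1 (k _ _ (.inl 0)).2 (k _ _ (.inl 0)).2]

theorem gram : ∀ i j, i ≠ j →
    inner ℝ (u i) (u j) ^ 2 ≠ inner ℝ (u i) (u i) * inner ℝ (u j) (u j) := by
  intro i j
  simp only [ip]
  fin_cases i <;> fin_cases j <;> simp [u] <;> norm_num

theorem bdd {b : Fin 6 → ℝ} {r : ℝ} (h : ∀ i, b i ≤ r) : P u b ⊆ Metric.closedBall 0 (4 * r) := by
  intro x hx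
  obtain ⟨h0, h1, h2, h3, h4, h5⟩ := (mem1 b x).1 hx
  have r0 : 0 ≤ r := by linarith [h 0, h 1, h 2]
  have k : ∀ t : ℝ, -t ≤ r → t ≤ 2 * r → t ^ 2 ≤ 4 * r ^ 2 := fun t a b => by nlinarith
  rw [mem_closedBall_zero_iff, ← sq_le_sq₀ (norm_nonneg x) (by linarith),
    EuclideanSpace.real_norm_sq_eq, Fin.sum_univ_four]
  linarith [k (x 0) (by linarith [h 0]) (by linarith [h 1, h 2]),
    k (x 1) (by linarith [h 1]) (by linarith [h 0, h 2]),
    k (x 2) (by linarith [h 3]) (by linarith [h 4, h 5]),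
    k (x 3) (by linarith [h 4]) (by linarith [h 3, h 5])]

theorem dl (c h : ℝ) : HasDerivAt (fun ε : ℝ => c + ε * h) h 0 := by
  simpa using ((hasDerivAt_id (0 : ℝ)).mul_const h).const_add c

theorem tri (a b c : ℝ) : HasDerivAt (fun ε : ℝ =>
    (1 + ε * a + (1 + ε * b) + (1 + ε * c)) ^ 2 / 2) (3 * (a + b + c)) 0 := by
  refine ((((dl 1 a).fun_add (dl 1 b)).fun_add (dl 1 c)).fun_pow 2 |>.div_const 2).congr_deriv ?_
  push_cast
  ring

theorem hex (ρ a b c d e f : ℝ) : HasDerivAt (fun ε : ℝ =>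
    (ρ + ε * b + (ρ + ε * e)) * (ρ + ε * a + (ρ + ε * d)) -
      (ρ + ε * d + (ρ + ε * e) - (ρ + ε * c)) ^ 2 / 2 -
      (ρ + ε * a + (ρ + ε * b) - (ρ + ε * f)) ^ 2 / 2) (ρ * (a + b + c + d + e + f)) 0 := by
  refine (((((dl ρ b).fun_add (dl ρ e)).fun_mul ((dl ρ a).fun_add (dl ρ d))).fun_sub
    ((((dl ρ d).fun_add (dl ρ e)).fun_sub (dl ρ c)).fun_pow 2 |>.div_const 2)).fun_sub
    ((((dl ρ a).fun_add (dl ρ b)).fun_sub (dl ρ f)).fun_pow 2 |>.div_const 2)).congr_deriv ?_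
  push_cast
  ring

theorem main {ρ : ℝ} (h0 : 0 < ρ) (h3 : ρ ^ 3 = 9 / 4) {L : Set (EuclideanSpace ℝ (Fin 4))}
    (hL : IsCompact L) (hn : L.Nonempty) : HasDerivWithinAt (fun ε : ℝ =>
      (volume (P (Sum.elim u (-u)) (fun _ => ρ) + ε • L)).toReal -
        ((volume (P u (fun _ => 1) + ε • L)).toReal +
          (volume (P (-u) (fun _ => 1) + ε • L)).toReal) / 2) 0 (Ici 0) 0 := by
  choose l l1 l2 using fun a : EuclideanSpace ℝ (Fin 4) =>
    hL.exists_isMaxOn hn (f := fun y => inner ℝ a y) (by fun_prop)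
  let s : EuclideanSpace ℝ (Fin 4) → ℝ := fun a => inner ℝ a (l a)
  have pos : ∀ h : Fin 6 → ℝ, ∀ᶠ ε in 𝓝 (0 : ℝ), ∀ i, 0 < 1 + ε * h i := fun h =>
    eventually_all.2 fun i => continuousAt_const.eventually_lt (dl 1 (h i)).continuousAt (by simp)
  have a1 := deriv (a := u) (b := fun _ => 1) (fun i j h => .inl (gram i j h))
    (bdd (r := 2) fun _ => by norm_num) (fun i => l1 (u i)) (fun i => l2 (u i))
    ((tri (s (u 0)) (s (u 1)) (s (u 2))).fun_mul (tri (s (u 3)) (s (u 4)) (s (u 5))))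
    ((pos fun i => s (u i)).mono fun ε h => vol1 h)
  have a2 := deriv (a := -u) (b := fun _ => 1) (R := 4 * 2)
    (fun i j h => .inl (by simpa using gram i j h))
    (fun x hx => by
      simpa using bdd (r := 2) (b := fun _ => 1 + 1) (fun _ => by norm_num) (a := -x)
        fun i => by simpa using hx i) (fun i => l1 (-u i)) (fun i => l2 (-u i))
    ((tri (s (-u 0)) (s (-u 1)) (s (-u 2))).fun_mul (tri (s (-u 3)) (s (-u 4)) (s (-u 5))))
    ((pos fun i => s (-u i)).mono fun ε h => vol2 h)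
  have a3 := deriv (a := Sum.elim u (-u)) (b := fun _ => ρ) (R := 4 * (ρ + 1))
    (by
      rintro (i | i) (j | j) h
      · exact .inl (gram i j fun e => h (e ▸ rfl))
      · by_cases e : i = j
        · exact .inr ⟨e ▸ rfl, by linarith⟩
        · exact .inl (by simpa using gram i j e)
      · by_cases e : i = j
        · exact .inr ⟨by simp [e], by linarith⟩
        · exact .inl (by simpa using gram i j e)
      · exact .inl (by simpa using gram i j fun e => h (e ▸ rfl)))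
    (fun x hx => bdd (fun _ => le_rfl) ((mem3 _ _).1 hx).1)
    (fun i => l1 (Sum.elim u (-u) i)) (fun i => l2 (Sum.elim u (-u) i))
    ((hex ρ (s (u 0)) (s (u 1)) (s (u 2)) (s (-u 0)) (s (-u 1)) (s (-u 2))).fun_mul
      (hex ρ (s (u 3)) (s (u 4)) (s (u 5)) (s (-u 3)) (s (-u 4)) (s (-u 5))))
    ((eventually_all.2 fun i => ContinuousAt.eventually_lt
      (f := fun ε : ℝ => 3 * |ρ + ε * s (Sum.elim u (-u) i) - ρ|) (by fun_prop) continuousAt_const
      (by simpa using h0)).mono fun ε h => vol3 (ρ := ρ) h)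
  refine (a3.fun_sub ((a1.fun_add a2).div_const 2)).congr_deriv ?_
  linear_combination 3 * (s (u 0) + s (u 1) + s (u 2) + s (u 3) + s (u 4) + s (u 5) +
    s (-u 0) + s (-u 1) + s (-u 2) + s (-u 3) + s (-u 4) + s (-u 5)) * h3

theorem diff : P u (fun _ => 1) + -P u (fun _ => 1) = P (Sum.elim u (-u)) fun _ => 3 := by
  ext x
  simp only [Set.mem_add, Set.mem_neg, mem3, mem1, mem2, Function.comp]
  constructor
  · rintro ⟨y, hy, z, hz, rfl⟩
    simp only [PiLp.add_apply, PiLp.neg_apply] at hz ⊢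
    casesm* _ ∧ _
    constructorm* _ ∧ _ <;> linarith
  · intro h
    have k : ∀ s t : ℝ, s ≤ 3 → t ≤ 3 → s + t ≤ 3 → max s 0 + max t 0 ≤ 3 := fun s t a b c => by
      rcases le_total s 0 with p | p <;> rcases le_total t 0 with q | q <;>
        simp only [max_eq_left, max_eq_right, p, q] <;> linarith
    have m : ∀ s : ℝ, max (-s) 0 = max s 0 - s := fun s => by
      rcases le_total s 0 with p | p
      · rw [max_eq_left (neg_nonneg.2 p), max_eq_right p]; ring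
      · rw [max_eq_right (neg_nonpos.2 p), max_eq_left p]; ring
    casesm* _ ∧ _
    refine ⟨WithLp.toLp 2 fun i => max (x i) 0 - 1, ?_, x - WithLp.toLp 2 fun i => max (x i) 0 - 1,
      ?_, add_sub_cancel _ _⟩ <;> simp only [PiLp.sub_apply, PiLp.neg_apply] <;>
    constructorm* _ ∧ _ <;>
    linarith [le_max_right (x 0) 0, le_max_right (x 1) 0, le_max_right (x 2) 0,
      le_max_right (x 3) 0, le_max_left (x 0) 0, le_max_left (x 1) 0, le_max_left (x 2) 0,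
      le_max_left (x 3) 0, k (x 0) (x 1) ‹_› ‹_› ‹_›, k (x 2) (x 3) ‹_› ‹_› ‹_›,
      k (-x 0) (-x 1) ‹_› ‹_› (by linarith), k (-x 2) (-x 3) ‹_› ‹_› (by linarith),
      m (x 0), m (x 1), m (x 2), m (x 3)]

variable {n : ℕ} {ι : Type} {a : ι → EuclideanSpace ℝ (Fin n)}

theorem P.smul {r : ℝ} (hr : 0 < r) (c : ℝ) : r • P a (fun _ => c) = P a fun _ => r * c := by
  ext x
  rw [mem_smul_set_iff_inv_smul_mem₀ hr.ne']
  simp only [P, mem_ofPred_eq, real_inner_smul_right, inv_mul_le_iff₀ hr]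

theorem P.convex (b : ι → ℝ) : Convex ℝ (P a b) := fun x hx y hy s t hs ht hst j => by
  have := add_le_add (mul_le_mul_of_nonneg_left (hx j) hs) (mul_le_mul_of_nonneg_left (hy j) ht)
  rwa [← add_mul, hst, one_mul, ← real_inner_smul_right, ← real_inner_smul_right,
    ← inner_add_right] at this

theorem P.compact {b : ι → ℝ} {R : ℝ} (h : P a b ⊆ Metric.closedBall 0 R) : IsCompact (P a b) := by
  refine Metric.isCompact_of_isClosed_isBounded ?_ (Metric.isBounded_closedBall.subset h)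
  simp only [P, ofPred_forall]
  exact isClosed_iInter fun _ => isClosed_le (by fun_prop) (by fun_prop)

theorem P.int [Finite ι] {c : ℝ} (h : 0 < c) : (interior (P a fun _ => c)).Nonempty := by
  have : IsOpen {x : EuclideanSpace ℝ (Fin n) | ∀ j, inner ℝ (a j) x < c} := by
    simp only [ofPred_forall]
    exact isOpen_iInter_of_finite fun _ => isOpen_lt (by fun_prop) (by fun_prop)
  exact ⟨0, interior_maximal (fun y hy j => (hy j).le) this fun j => by simpa using h⟩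

end Pool.Agent.H.MP_c7fc41_gt
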